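import Pool.Agent.helper4.HL.Spec
import Pool.Agent.helper99.QS.SNG

/-!
# Project hl (MP_07c750_an), module STA
-/

set_option autoImplicit false

open scoped BigOperators ComplexOrder ComplexConjugate Topology

namespace Pool.Agent.HL

open Pool.Agent.helper86.CM Pool.Agent.QS Filter MeasureTheory

noncomputable section

theorem STA_quad (ν : Measure T2) [IsProbabilityMeasure ν] {m : ℕ} (d : Fin m → ℂ)
    (n : Fin m → Lat 1) :
    ∑ i, ∑ j, conj (d i) * d j * ∫ y, chr (n j - n i) y ∂ν =
      ((∫ y, ‖∑ i, d i * chr (n i) y‖ ^ 2 ∂ν : ℝ) : ℂ) := by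
  have h0 : ((∫ y, ‖∑ i, d i * chr (n i) y‖ ^ 2 ∂ν : ℝ) : ℂ) =
      ∫ y, ((‖∑ i, d i * chr (n i) y‖ ^ 2 : ℝ) : ℂ) ∂ν :=
    (integral_complex_ofReal (f := fun y => ‖∑ i, d i * chr (n i) y‖ ^ 2)).symm
  have h1 : (fun y : T2 => ((‖∑ i, d i * chr (n i) y‖ ^ 2 : ℝ) : ℂ)) = fun y =>
      ∑ i, ∑ j, conj (d i) * d j * chr (n j - n i) y := by
    funext y
    have h2 : ((‖∑ i, d i * chr (n i) y‖ ^ 2 : ℝ) : ℂ) =
        conj (∑ i, d i * chr (n i) y) * ∑ i, d i * chr (n i) y := by
      rw [Complex.conj_mul']
      push_cast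
      rfl
    rw [h2, map_sum, Finset.sum_mul_sum]
    refine Finset.sum_congr rfl fun i _ => Finset.sum_congr rfl fun j _ => ?_
    rw [← SNG_mul, map_mul]
    ring
  rw [h0, h1, integral_finsetSum]
  · refine Finset.sum_congr rfl fun i _ => ?_
    rw [integral_finsetSum]
    · refine Finset.sum_congr rfl fun j _ => ?_
      rw [integral_const_mul]
    · intro j _
      exact SNG_int ν (continuous_const.mul (SNG_cont _))
  · intro i _
    exact SNG_int ν (continuous_finsetSum _ fun j _ => continuous_const.mul (SNG_cont _))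

theorem STA_conj (ν : Measure T2) [IsProbabilityMeasure ν] (n : Lat 1) :
    conj (∫ y, chr n y ∂ν) = ∫ y, chr (-n) y ∂ν := by
  rw [← integral_conj]
  congr 1
  funext y
  have h1 := SNG_mul n 0 y
  rw [zero_sub] at h1
  rw [← h1]
  have h2 : (chr (g := 1) 0 y : ℂ) = 1 := by simp [chr, UnitAddTorus.mFourier_zero]
  rw [h2, mul_one]

theorem STA_psd (ν : Measure T2) [IsProbabilityMeasure ν] {m : ℕ} (k n : Fin m → Lat 1)
    (a : Fin m → ℂ) :
    (Matrix.of fun i j : Fin m => conj (a i) * a j *
      (if k i = k j then ∫ y, chr (n j - n i) y ∂ν else 0)).PosSemidef := by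
  classical
  rw [Matrix.posSemidef_iff_dotProduct_mulVec]
  constructor
  · ext i j
    rw [Matrix.conjTranspose_apply]
    simp only [Matrix.of_apply, Complex.star_def, map_mul, Complex.conj_conj]
    have h1 : conj (if k j = k i then ∫ y, chr (n i - n j) y ∂ν else 0) =
        if k i = k j then ∫ y, chr (n j - n i) y ∂ν else 0 := by
      by_cases h : k i = k j
      · rw [if_pos h, if_pos h.symm, STA_conj, neg_sub]
      · rw [if_neg h, if_neg (fun h' => h h'.symm), map_zero]
    rw [h1]
    ring
  · intro x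
    have h1 : star x ⬝ᵥ (Matrix.mulVec (Matrix.of fun i j : Fin m => conj (a i) * a j *
        (if k i = k j then ∫ y, chr (n j - n i) y ∂ν else 0)) x) =
        ∑ κ ∈ Finset.univ.image k, ((∫ y, ‖∑ i, (if k i = κ then a i * x i else 0) *
          chr (n i) y‖ ^ 2 ∂ν : ℝ) : ℂ) := by
      simp only [← STA_quad]
      simp only [dotProduct, Matrix.mulVec, Matrix.of_apply, Pi.star_apply, Complex.star_def,
        Finset.mul_sum]
      rw [Finset.sum_comm' (s := Finset.univ.image k) (t := fun _ => Finset.univ)
        (t' := Finset.univ) (s' := fun _ => Finset.univ.image k) (by simp)]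
      refine Finset.sum_congr rfl fun i _ => ?_
      rw [Finset.sum_comm]
      refine Finset.sum_congr rfl fun j _ => ?_
      rw [Finset.sum_eq_single (k i)]
      · by_cases h : k i = k j
        · rw [if_pos h, if_pos rfl, if_pos h.symm, map_mul]
          ring
        · rw [if_neg h, if_pos rfl, if_neg (fun h' => h h'.symm)]
          ring
      · intro κ _ hκ
        rw [if_neg (Ne.symm hκ), map_zero, zero_mul, zero_mul]
      · intro h
        exact absurd (Finset.mem_image_of_mem k (Finset.mem_univ i)) h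
    rw [h1]
    apply Finset.sum_nonneg
    intro κ _
    rw [Complex.zero_le_real]
    exact integral_nonneg fun y => by positivity

theorem STA : STA_stmt := by
  intro B t hB X ν hν hinv
  have := hν
  refine ⟨?_, ?_, ?_, ?_⟩
  · intro m x
    have e : (Matrix.of fun i j : Fin m => ee (-(hx B t X (x i) (x j))) *
        (1 / 2 * (if (x j - x i).2 = 0 then ∫ y, chr (x j - x i).1 y ∂ν else 0) +
          1 / 2 * (if (x j - x i).1 = 0 then ∫ y, chr (x j - x i).2 y ∂ν else 0))) =
        (1 / 2 : ℂ) • (Matrix.of fun i j : Fin m =>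
          conj (ee (X * beta B t (x i).1 (x i).2 / 2)) * ee (X * beta B t (x j).1 (x j).2 / 2) *
          (if (x i).2 = (x j).2 then ∫ y, chr ((x j).1 - (x i).1) y ∂ν else 0)) +
        (1 / 2 : ℂ) • (Matrix.of fun i j : Fin m =>
          conj (ee (-(X * beta B t (x i).1 (x i).2 / 2))) *
            ee (-(X * beta B t (x j).1 (x j).2 / 2)) *
          (if (x i).1 = (x j).1 then ∫ y, chr ((x j).2 - (x i).2) y ∂ν else 0)) := by
      ext i j
      simp only [Matrix.add_apply, Matrix.smul_apply, Matrix.of_apply, smul_eq_mul, conj_ee,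
        ← ee_add, Prod.fst_sub, Prod.snd_sub, sub_eq_zero]
      rw [mul_add]
      congr 1
      · by_cases h : (x i).2 = (x j).2
        · rw [if_pos h, if_pos h.symm]
          have e1 : -(hx B t X (x i) (x j)) =
              -(X * beta B t (x i).1 (x i).2 / 2) + X * beta B t (x j).1 (x j).2 / 2 := by
            unfold hx hh
            rw [← h]
            ring
          rw [e1]
          ring
        · rw [if_neg h, if_neg (fun h' => h h'.symm)]
          ring
      · by_cases h : (x i).1 = (x j).1
        · rw [if_pos h, if_pos h.symm]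
          have e1 : -(hx B t X (x i) (x j)) =
              -(-(X * beta B t (x i).1 (x i).2 / 2)) + -(X * beta B t (x j).1 (x j).2 / 2) := by
            unfold hx hh
            rw [← h]
            ring
          rw [e1]
          ring
        · rw [if_neg h, if_neg (fun h' => h h'.symm)]
          ring
    rw [e]
    have h12 : (0 : ℂ) ≤ 1 / 2 := by
      rw [show (1 / 2 : ℂ) = ((1 / 2 : ℝ) : ℂ) by push_cast; ring, Complex.zero_le_real]
      norm_num
    exact ((STA_psd ν _ _ fun i => ee (X * beta B t (x i).1 (x i).2 / 2)).smul h12).add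
      ((STA_psd ν _ _ fun i => ee (-(X * beta B t (x i).1 (x i).2 / 2))).smul h12)
  · have h2 : ∀ y : T2, (chr (g := 1) 0 y : ℂ) = 1 := fun y => by
      simp [chr, UnitAddTorus.mFourier_zero]
    simp only [Prod.fst_zero, Prod.snd_zero, if_true, h2]
    simp
    norm_num
  · intro x
    simp only [BB]
    simp only [hinv, LinearEquiv.map_eq_zero_iff]
  · intro x
    simp only
    ring

end

end Pool.Agent.HL
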